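import Pool.Agent.Helper99.DF.St

set_option autoImplicit false

namespace Pool.Agent.Helper67.DF

open Pool.Agent.Helper99.DF

theorem hCNT : StCNT := by
  intro Z J c D m hZ hD hrel
  classical
  have hDR : (0 : ℝ) < D := by exact_mod_cast hD
  set B : ℕ := ∑ k ∈ Z, ⌈(c k)⁻¹⌉₊ with hB
  have hB1 : ∀ k ∈ Z, 1 ≤ (B : ℝ) * c k := by
    intro k hk
    have h1 : (c k)⁻¹ ≤ (⌈(c k)⁻¹⌉₊ : ℝ) := Nat.le_ceil _
    have h2 : ⌈(c k)⁻¹⌉₊ ≤ B :=
      Finset.single_le_sum (f := fun k => ⌈(c k)⁻¹⌉₊) (fun _ _ => Nat.zero_le _) hk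
    have h3 : (⌈(c k)⁻¹⌉₊ : ℝ) ≤ B := by exact_mod_cast h2
    have h4 := hZ k hk
    have h5 : (c k)⁻¹ * c k = 1 := inv_mul_cancel₀ h4.ne'
    rw [← h5]
    exact mul_le_mul_of_nonneg_right (h1.trans h3) h4.le
  set K : ℕ := B * ∑ k ∈ Z, ∑ l ∈ J, (m k l).natAbs with hK
  refine ⟨2 * K + 1, fun M => ⟨(Fintype.piFinset (fun _ : J =>
    Finset.Icc (-((K * M : ℕ) : ℤ)) ((K * M : ℕ) : ℤ))).image
      (fun f => (∑ l : J, (f l : ℝ) * c l) / D), ?_, ?_⟩⟩
  · refine Finset.card_image_le.trans ?_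
    rw [Fintype.card_piFinset]
    simp only [Int.card_Icc, Finset.prod_const, Finset.card_univ, Fintype.card_coe]
    refine Nat.pow_le_pow_left ?_ _
    have : (((K * M : ℕ) : ℤ) + 1 - -((K * M : ℕ) : ℤ)).toNat = 2 * (K * M) + 1 := by omega
    rw [this]
    nlinarith
  · intro α hα
    rw [Finset.mem_image]
    have hα1 : ∀ k ∈ Z, α k ≤ B * M := by
      intro k hk
      have h1 := hB1 k hk
      have h2 : (α k : ℝ) * c k ≤ ∑ k ∈ Z, (α k : ℝ) * c k :=
        Finset.single_le_sum (f := fun k => (α k : ℝ) * c k)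
          (fun j hj => mul_nonneg (Nat.cast_nonneg _) (hZ j hj).le) hk
      have h3 : (α k : ℝ) ≤ (B : ℝ) * M := by
        calc (α k : ℝ) = α k * 1 := by ring
          _ ≤ α k * (B * c k) := mul_le_mul_of_nonneg_left h1 (Nat.cast_nonneg _)
          _ = B * (α k * c k) := by ring
          _ ≤ B * M := mul_le_mul_of_nonneg_left (by linarith) (Nat.cast_nonneg _)
      exact_mod_cast h3
    refine ⟨fun l => ∑ k ∈ Z, (α k : ℤ) * m k l, ?_, ?_⟩
    · rw [Fintype.mem_piFinset]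
      intro l
      rw [Finset.mem_Icc, ← abs_le]
      refine (Finset.abs_sum_le_sum_abs _ _).trans ?_
      have h1 : ∀ k ∈ Z, |(α k : ℤ) * m k l| ≤
          ((B * M : ℕ) : ℤ) * ((∑ l ∈ J, (m k l).natAbs : ℕ) : ℤ) := by
        intro k hk
        rw [abs_mul, Nat.abs_cast]
        have h2 : (m k l).natAbs ≤ ∑ l ∈ J, (m k l).natAbs :=
          Finset.single_le_sum (f := fun l => (m k l).natAbs) (fun _ _ => Nat.zero_le _) l.2
        have h3 : |m k l| ≤ ((∑ l ∈ J, (m k l).natAbs : ℕ) : ℤ) := by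
          rw [← Int.natCast_natAbs]
          exact_mod_cast h2
        have h4 : (α k : ℤ) ≤ ((B * M : ℕ) : ℤ) := by exact_mod_cast hα1 k hk
        exact mul_le_mul h4 h3 (abs_nonneg _) (by positivity)
      refine (Finset.sum_le_sum h1).trans ?_
      rw [← Finset.mul_sum, hK]
      push_cast
      apply le_of_eq
      ring
    · rw [div_eq_iff hDR.ne', Finset.sum_mul]
      have h1 : ∀ k ∈ Z, (α k : ℝ) * c k * D = ∑ l ∈ J, (α k : ℝ) * ((m k l : ℝ) * c l) := by
        intro k hk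
        rw [← Finset.mul_sum, ← hrel k hk]
        ring
      rw [Finset.sum_congr rfl h1, Finset.sum_comm, ← Finset.sum_coe_sort J]
      refine Finset.sum_congr rfl fun l _ => ?_
      push_cast
      rw [Finset.sum_mul]
      refine Finset.sum_congr rfl fun k _ => ?_
      ring

end Pool.Agent.Helper67.DF
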